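import Mathlib
import Pool.Agent.H933R3.Defs

set_option autoImplicit false

/-!
# Local constructions in which the tree of simplices is built first

The notions `IsCx`, `NonEvasive`, `realization`, `IsBall`, `IsFacet`, `AtMostTwo`, `SameFace` are
in `Pool.Agent.H933R3.Defs`. The definitions below are copies of those in
`Pool.Agent.Y364.E3.Tree` (copied in order not to import the files that one imports).
-/

namespace Pool.Agent.N361.LC

open Finset Pool.Agent.H933R3

variable {V : Type} [DecidableEq V]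

/-- `TreeStage d K 𝓕 T`: the facets in `𝓕` of `K`, glued along the faces in `T` only, form a tree
of `d`-simplices. -/
inductive TreeStage (d : ℕ) (K : Finset (Finset V)) :
    Finset (Finset V) → Finset (Finset V) → Prop
  /-- a single `d`-simplex -/
  | start (F : Finset V) (hF : IsFacet K F) : TreeStage d K {F} ∅
  /-- attach a new `d`-simplex `F'` along exactly one boundary `(d-1)`-face, the face `R` -/
  | attach (𝓕 T : Finset (Finset V)) (F F' R : Finset V) (h : TreeStage d K 𝓕 T) (hF : F ∈ 𝓕)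
      (hF' : IsFacet K F') (hn : F' ∉ 𝓕) (hR : R.card = d) (h1 : R ⊆ F) (h2 : R ⊆ F')
      (hT : R ∉ T) : TreeStage d K (insert F' 𝓕) (insert R T)

/-- `GlueStage d 𝓕 T G`: starting with the simplices in `𝓕` glued along the faces in `T`, the
simplices in `𝓕` glued along the faces in `G` are reached by local gluings. -/
inductive GlueStage (d : ℕ) (𝓕 T : Finset (Finset V)) : Finset (Finset V) → Prop
  /-- no gluing -/
  | start : GlueStage d 𝓕 T T
  /-- identify two distinct boundary `(d-1)`-faces, the copies of `R` in `F` and in `F'`, that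
  share a `(d-2)`-face `A` -/
  | glue (G : Finset (Finset V)) (F F' R A : Finset V) (h : GlueStage d 𝓕 T G) (hF : F ∈ 𝓕)
      (hF' : F' ∈ 𝓕) (hne : F ≠ F') (hR : R.card = d) (h1 : R ⊆ F) (h2 : R ⊆ F') (hG : R ∉ G)
      (hA : A.card + 1 = d) (hAR : A ⊆ R) (hs : SameFace 𝓕 G A F F') :
      GlueStage d 𝓕 T (insert R G)

/-- `K` is a locally constructible `d`-dimensional pseudomanifold: it is obtained from a tree of
`d`-simplices by a sequence of local gluings. -/
def IsTreeLC (d : ℕ) (K : Finset (Finset V)) : Prop :=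
  (∀ F, IsFacet K F → F.card = d + 1) ∧ AtMostTwo d K ∧
    ∃ 𝓕 T G : Finset (Finset V), TreeStage d K 𝓕 T ∧ GlueStage d 𝓕 T G ∧
      (∀ F, IsFacet K F → F ∈ 𝓕) ∧
      ∀ A ∈ K, ∀ F ∈ 𝓕, ∀ F' ∈ 𝓕, A ⊆ F → A ⊆ F' → SameFace 𝓕 G A F F'

theorem lc_of_tree {d : ℕ} {K 𝓕 T : Finset (Finset V)} (h : TreeStage d K 𝓕 T) :
    LCStage d K 𝓕 T := by
  induction h with
  | start F hF => exact LCStage.start F hF
  | attach 𝓕 T F F' R h hF hF' hn hR h1 h2 hT ih =>
    exact LCStage.attach 𝓕 T F F' R ih hF hF' hn hR h1 h2 hT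

theorem lc_of_glue {d : ℕ} {K 𝓕 T G : Finset (Finset V)} (h0 : TreeStage d K 𝓕 T)
    (h : GlueStage d 𝓕 T G) : LCStage d K 𝓕 G := by
  induction h with
  | start => exact lc_of_tree h0
  | glue G F F' R A h hF hF' hne hR h1 h2 hG hA hAR hs ih =>
    exact LCStage.glue 𝓕 G F F' R A ih hF hF' hne hR h1 h2 hG hA hAR hs

theorem isLC_of_isTreeLC {d : ℕ} {K : Finset (Finset V)} (h : IsTreeLC d K) : IsLC d K := by
  obtain ⟨h1, h2, 𝓕, T, G, h3, h4, h5, h6⟩ := h
  exact ⟨h1, h2, 𝓕, G, lc_of_glue h3 h4, h5, h6⟩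

end Pool.Agent.N361.LC
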