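import Mathlib
import Pool.Agent.N361.LC.Defs

set_option autoImplicit false
set_option linter.unusedSectionVars false

/-!
# A complex carrying a local system outside a codimension-two face `A0`

If a local system defined off `A0`, trivial near `A0`, has no global section taking a prescribed
value near `A0`, then the complex is not locally constructible.
-/

namespace Pool.Agent.N361.LC

open Finset Pool.Agent.H933R3

variable {V : Type} [DecidableEq V] {C : Type}

/-- local system data -/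
structure Sys (d : ℕ) (K : Finset (Finset V)) (A0 L : Finset V) (tr : V → V → C → C) (c0 : C) :
    Prop where
  card : ∀ F, IsFacet K F → F.card = d + 1
  two : AtMostTwo d K
  cA : A0.card + 1 = d
  cL : L.card = 3
  sub : ∀ F, IsFacet K F → A0 ⊆ F → F \ A0 ⊆ L
  idt : ∀ F, IsFacet K F → ∀ u ∈ F, u ∉ A0 → ∀ c, tr u u c = c
  coc : ∀ F, IsFacet K F → ∀ u ∈ F, ∀ v ∈ F, ∀ w ∈ F, u ∉ A0 → v ∉ A0 → w ∉ A0 →
    ∀ c, tr v w (tr u v c) = tr u w c
  near : ∀ u ∈ L, ∀ v ∈ L, tr u v c0 = c0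

/-- sections over a simplex -/
def Fl (A0 : Finset V) (tr : V → V → C → C) (F : Finset V) (g : V → C) : Prop :=
  ∀ u ∈ F, ∀ v ∈ F, u ∉ A0 → v ∉ A0 → g v = tr u v (g u)

/-- sections over an intermediate complex -/
def Con (A0 : Finset V) (tr : V → V → C → C) (𝓕 G : Finset (Finset V))
    (s : Finset V → V → C) : Prop :=
  (∀ F ∈ 𝓕, Fl A0 tr F (s F)) ∧
    ∀ R ∈ G, ∀ F ∈ 𝓕, ∀ F' ∈ 𝓕, R ⊆ F → R ⊆ F' → ∀ v ∈ R, v ∉ A0 → s F v = s F' v

section
variable {d : ℕ} {K : Finset (Finset V)} {A0 L : Finset V} {tr : V → V → C → C} {c0 : C}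

theorem fl_of (S : Sys d K A0 L tr c0) {F : Finset V} (hF : IsFacet K F) {u : V} (hu : u ∈ F)
    (hu0 : u ∉ A0) (c : C) : Fl A0 tr F (fun v => tr u v c) := by
  intro v hv w hw hv0 hw0
  exact (S.coc F hF u hu v hv w hw hu0 hv0 hw0 c).symm

theorem exists_out {F : Finset V} (h : A0.card < F.card) : ∃ u ∈ F, u ∉ A0 := by
  by_contra hc
  push Not at hc
  have := card_le_card (fun u hu => hc u hu : F ⊆ A0)
  omega

/-- extension of a section to a newly attached simplex -/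
theorem con_attach {𝓕 G : Finset (Finset V)} {F F' R : Finset V} {s : Finset V → V → C}
    (S : Sys d K A0 L tr c0) (hfac : ∀ F ∈ 𝓕, IsFacet K F)
    (hG : ∀ R ∈ G, R.card = d ∧ ∃ F ∈ 𝓕, ∃ F' ∈ 𝓕, F ≠ F' ∧ R ⊆ F ∧ R ⊆ F')
    (hF : F ∈ 𝓕) (hF' : IsFacet K F') (hn : F' ∉ 𝓕) (hR : R.card = d) (h1 : R ⊆ F) (h2 : R ⊆ F')
    (hs : Con A0 tr 𝓕 G s) {g : V → C} (hg : Fl A0 tr F' g)
    (hag : ∀ v ∈ R, v ∉ A0 → s F v = g v) :
    Con A0 tr (insert F' 𝓕) (insert R G) (Function.update s F' g) := by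
  have hne : ∀ X ∈ 𝓕, X ≠ F' := fun X hX e => hn (e ▸ hX)
  have hsX : ∀ X ∈ 𝓕, Function.update s F' g X = s X := fun X hX =>
    Function.update_of_ne (hne X hX) _ _
  have hsF' : Function.update s F' g F' = g := Function.update_self _ _ _
  constructor
  · intro X hX
    rcases mem_insert.1 hX with rfl | hX
    · rw [hsF']; exact hg
    · rw [hsX X hX]; exact hs.1 X hX
  · intro R' hR' X hX Y hY hRX hRY v hv hv0
    -- facets containing the ridges
    rcases mem_insert.1 hR' with rfl | hR'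
    · -- the new ridge: only `F` and `F'`
      have key : ∀ Z ∈ insert F' 𝓕, R' ⊆ Z → Function.update s F' g Z v = g v := by
        intro Z hZ hRZ
        rcases mem_insert.1 hZ with rfl | hZ
        · rw [hsF']
        · rw [hsX Z hZ]
          have h3 := S.two R' hR F' F Z hF' (hfac F hF) (hfac Z hZ) h2 h1 hRZ
          rcases h3 with h3 | h3 | h3
          · exact absurd h3.symm (hne F hF)
          · exact absurd h3.symm (hne Z hZ)
          · rw [← h3]; exact hag v hv hv0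
      rw [key X hX hRX, key Y hY hRY]
    · -- an old ridge: not in `F'`
      obtain ⟨hc, F1, hF1, F2, hF2, h12, hR1, hR2⟩ := hG R' hR'
      have key : ∀ Z ∈ insert F' 𝓕, R' ⊆ Z → Z ∈ 𝓕 := by
        intro Z hZ hRZ
        rcases mem_insert.1 hZ with rfl | hZ
        · exfalso
          rcases S.two R' hc Z F1 F2 hF' (hfac F1 hF1) (hfac F2 hF2) hRZ hR1 hR2 with h3 | h3 | h3
          · exact hne F1 hF1 h3.symm
          · exact hne F2 hF2 h3.symm
          · exact h12 h3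
        · exact hZ
      have hX' := key X hX hRX
      have hY' := key Y hY hRY
      rw [hsX X hX', hsX Y hY']
      exact hs.2 R' hR' X hX' Y hY' hRX hRY v hv hv0

/-- sections agree along chains -/
theorem con_same {𝓕 G : Finset (Finset V)} {A F F' : Finset V} {s : Finset V → V → C}
    (hs : Con A0 tr 𝓕 G s) (h : SameFace 𝓕 G A F F') {u : V} (hu : u ∈ A) (hu0 : u ∉ A0) :
    s F u = s F' u := by
  induction h with
  | refl => rfl
  | tail _ hst ih =>
    obtain ⟨hX, hY, R, hR, hAR, hRX, hRY⟩ := hst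
    rw [ih]
    exact hs.2 R hR _ hX _ hY hRX hRY u (hAR hu) hu0

/-- a section which has the value `c0` near `A0` -/
theorem con_near {𝓕 G : Finset (Finset V)} {F F' : Finset V} {s : Finset V → V → C}
    (S : Sys d K A0 L tr c0) (hfac : ∀ F ∈ 𝓕, IsFacet K F)
    (hG : ∀ R ∈ G, R.card = d) (hs : Con A0 tr 𝓕 G s) (h : SameFace 𝓕 G A0 F F')
    (hA : A0 ⊆ F) (h0 : ∀ u ∈ F, u ∉ A0 → s F u = c0) : A0 ⊆ F' ∧ ∀ u ∈ F', u ∉ A0 → s F' u = c0 := by
  induction h with
  | refl => exact ⟨hA, h0⟩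
  | @tail X Y _ hst ih =>
    obtain ⟨hX, hY, R, hR, hAR, hRX, hRY⟩ := hst
    obtain ⟨hAX, h1⟩ := ih
    have hAY : A0 ⊆ Y := hAR.trans hRY
    refine ⟨hAY, ?_⟩
    obtain ⟨w, hw, hw0⟩ := exists_out (A0 := A0) (F := R) (by have := hG R hR; have := S.cA; omega)
    have h2 : s Y w = c0 := by
      rw [← hs.2 R hR X hX Y hY hRX hRY w hw hw0]
      exact h1 w (hRX hw) hw0
    intro u hu hu0
    rw [hs.1 Y hY w (hRY hw) u hu hw0 hu0, h2]
    exact S.near w (S.sub Y (hfac Y hY) hAY (mem_sdiff.2 ⟨hRY hw, hw0⟩)) u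
      (S.sub Y (hfac Y hY) hAY (mem_sdiff.2 ⟨hu, hu0⟩))

/-- the invariant -/
def Inv (d : ℕ) (K : Finset (Finset V)) (A0 : Finset V) (tr : V → V → C → C) (c0 : C)
    (𝓕 G : Finset (Finset V)) : Prop :=
  (∀ F ∈ 𝓕, IsFacet K F) ∧ (∀ R ∈ G, R.card = d ∧ ∃ F ∈ 𝓕, ∃ F' ∈ 𝓕, F ≠ F' ∧ R ⊆ F ∧ R ⊆ F') ∧
  ((∀ F ∈ 𝓕, ∀ g, Fl A0 tr F g → ∃ s, Con A0 tr 𝓕 G s ∧ ∀ v ∈ F, v ∉ A0 → s F v = g v) ∨
   ((∀ R : Finset V, R.card = d → A0 ⊆ R → (∃ F, IsFacet K F ∧ R ⊆ F) → R ∈ G) ∧
     ∃ s, Con A0 tr 𝓕 G s ∧ ∃ F1 ∈ 𝓕, A0 ⊆ F1 ∧ ∃ u0 ∈ F1, u0 ∉ A0 ∧ s F1 u0 = c0))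

/-- the ridges of `F` containing `A0` -/
theorem ridge_two (S : Sys d K A0 L tr c0) {F R R' R'' : Finset V} (hF : F.card = d + 1)
    (hR : R.card = d) (hR' : R'.card = d) (hR'' : R''.card = d) (hA : A0 ⊆ R) (hA' : A0 ⊆ R')
    (hA'' : A0 ⊆ R'') (h1 : R ⊆ F) (h2 : R' ⊆ F) (h3 : R'' ⊆ F) (hne : R ≠ R') :
    R'' = R ∨ R'' = R' := by
  have hcA := S.cA
  have e1 : ∀ X : Finset V, X.card = d → A0 ⊆ X → X ⊆ F → ∃ x ∈ F \ A0, X = insert x A0 := by
    intro X hX hAX hXF
    have : (X \ A0).card = 1 := by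
      rw [card_sdiff_of_subset hAX]; omega
    obtain ⟨x, hx⟩ := card_eq_one.1 this
    have hx' : x ∈ X \ A0 := by rw [hx]; exact mem_singleton_self x
    rw [mem_sdiff] at hx'
    refine ⟨x, mem_sdiff.2 ⟨hXF hx'.1, hx'.2⟩, ?_⟩
    rw [insert_eq, ← hx, sdiff_union_of_subset hAX]
  obtain ⟨x, hx, rfl⟩ := e1 R hR hA h1
  obtain ⟨y, hy, rfl⟩ := e1 R' hR' hA' h2
  obtain ⟨z, hz, rfl⟩ := e1 R'' hR'' hA'' h3
  have hAF : A0 ⊆ F := hA.trans h1
  have hc : (F \ A0).card = 2 := by rw [card_sdiff_of_subset hAF]; omega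
  have hxy : x ≠ y := fun e => hne (by rw [e])
  have hsub : ({x, y} : Finset V) ⊆ F \ A0 := by
    intro w hw
    rw [mem_insert, mem_singleton] at hw
    rcases hw with rfl | rfl
    · exact hx
    · exact hy
  have heq : ({x, y} : Finset V) = F \ A0 :=
    eq_of_subset_of_card_le hsub (by rw [hc, card_pair hxy])
  rw [← heq, mem_insert, mem_singleton] at hz
  rcases hz with rfl | rfl
  · exact Or.inl rfl
  · exact Or.inr rfl

/-- two facets containing `A0` contain all ridges around `A0` -/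
theorem ridge_cover (S : Sys d K A0 L tr c0) {F F' R : Finset V} (hF : IsFacet K F)
    (hF' : IsFacet K F') (hne : F ≠ F') (hAF : A0 ⊆ F) (hAF' : A0 ⊆ F') (hR : R.card = d)
    (hAR : A0 ⊆ R) (hx : ∃ X, IsFacet K X ∧ R ⊆ X) : R ⊆ F ∨ R ⊆ F' := by
  have hcA := S.cA
  have hcF := S.card F hF
  have hcF' := S.card F' hF'
  obtain ⟨X, hX, hRX⟩ := hx
  have h1 : (R \ A0).card = 1 := by rw [card_sdiff_of_subset hAR]; omega
  obtain ⟨x, hx⟩ := card_eq_one.1 h1
  have hx' : x ∈ R \ A0 := by rw [hx]; exact mem_singleton_self x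
  have hRe : R = insert x A0 := by rw [insert_eq, ← hx, sdiff_union_of_subset hAR]
  rw [mem_sdiff] at hx'
  have hxL : x ∈ L := S.sub X hX (hAR.trans hRX) (mem_sdiff.2 ⟨hRX hx'.1, hx'.2⟩)
  have c1 : (F \ A0).card = 2 := by rw [card_sdiff_of_subset hAF]; omega
  have c2 : (F' \ A0).card = 2 := by rw [card_sdiff_of_subset hAF']; omega
  have s1 := S.sub F hF hAF
  have s2 := S.sub F' hF' hAF'
  have hne2 : F \ A0 ≠ F' \ A0 := by
    intro e
    apply hne
    rw [← sdiff_union_of_subset hAF, e, sdiff_union_of_subset hAF']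
  have hcov : (F \ A0) ∪ (F' \ A0) = L := by
    apply eq_of_subset_of_card_le (union_subset s1 s2)
    rw [S.cL]
    by_contra hlt
    have h3 : ((F \ A0) ∪ (F' \ A0)).card ≤ 2 := by omega
    have h4 : F \ A0 = (F \ A0) ∪ (F' \ A0) :=
      eq_of_subset_of_card_le subset_union_left (by omega)
    have h5 : F' \ A0 = (F \ A0) ∪ (F' \ A0) :=
      eq_of_subset_of_card_le subset_union_right (by omega)
    exact hne2 (h4.trans h5.symm)
  rw [← hcov, mem_union] at hxL
  rcases hxL with h | h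
  · left
    rw [hRe]
    exact insert_subset (mem_sdiff.1 h).1 hAF
  · right
    rw [hRe]
    exact insert_subset (mem_sdiff.1 h).1 hAF'

theorem step_out {𝓕 G : Finset (Finset V)} {A F F' : Finset V} (h : SameFace 𝓕 G A F F')
    (hne : F ≠ F') : ∃ R ∈ G, A ⊆ R ∧ R ⊆ F := by
  rcases Relation.ReflTransGen.cases_head h with h | ⟨Y, h, -⟩
  · exact absurd h hne
  · obtain ⟨-, -, R, hR, hAR, hRX, -⟩ := h
    exact ⟨R, hR, hAR, hRX⟩

theorem step_in {𝓕 G : Finset (Finset V)} {A F F' : Finset V} (h : SameFace 𝓕 G A F F')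
    (hne : F ≠ F') : ∃ R ∈ G, A ⊆ R ∧ R ⊆ F' := by
  rcases Relation.ReflTransGen.cases_tail h with h | ⟨Y, -, h⟩
  · exact absurd h.symm hne
  · obtain ⟨-, -, R, hR, hAR, -, hRY⟩ := h
    exact ⟨R, hR, hAR, hRY⟩

theorem inv_stage (S : Sys d K A0 L tr c0) {𝓕 G : Finset (Finset V)} (h : LCStage d K 𝓕 G) :
    Inv d K A0 tr c0 𝓕 G := by
  induction h with
  | start F hF =>
    refine ⟨?_, ?_, Or.inl ?_⟩
    · intro X hX
      rw [mem_singleton] at hX
      exact hX ▸ hF
    · intro R hR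
      exact absurd hR (notMem_empty R)
    · intro X hX g hg
      rw [mem_singleton] at hX
      subst hX
      refine ⟨fun _ => g, ⟨?_, ?_⟩, fun _ _ _ => rfl⟩
      · intro Y hY
        rw [mem_singleton] at hY
        subst hY
        exact hg
      · intro R hR
        exact absurd hR (notMem_empty R)
  | attach 𝓕 G F F' R h hF hF' hn hR h1 h2 hG ih =>
    obtain ⟨hfac, hG2, ih⟩ := ih
    have hcA := S.cA
    have hneF : F ≠ F' := fun e => hn (e ▸ hF)
    obtain ⟨w, hw, hw0⟩ := exists_out (A0 := A0) (F := R) (by omega)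
    refine ⟨?_, ?_, ?_⟩
    · intro X hX
      rcases mem_insert.1 hX with rfl | hX
      · exact hF'
      · exact hfac X hX
    · intro R' hR'
      rcases mem_insert.1 hR' with rfl | hR'
      · exact ⟨hR, F, mem_insert_of_mem hF, F', mem_insert_self _ _, hneF, h1, h2⟩
      · obtain ⟨h3, X, hX, Y, hY, h4⟩ := hG2 R' hR'
        exact ⟨h3, X, mem_insert_of_mem hX, Y, mem_insert_of_mem hY, h4⟩
    · -- extension of a section
      have hext : ∀ s, Con A0 tr 𝓕 G s → Con A0 tr (insert F' 𝓕) (insert R G)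
          (Function.update s F' (fun v => tr w v (s F w))) := by
        intro s hs
        refine con_attach S hfac hG2 hF hF' hn hR h1 h2 hs (fl_of S hF' (h2 hw) hw0 _) ?_
        intro v hv hv0
        exact hs.1 F hF w (h1 hw) v (h1 hv) hw0 hv0
      rcases ih with ih | ⟨ih1, s, hs, F1, hF1, hA1, u0, hu0, hu0', hsu⟩
      · left
        intro X hX g hg
        rcases mem_insert.1 hX with rfl | hX
        · -- the new simplex
          obtain ⟨s, hs, hs2⟩ := ih F hF (fun v => tr w v (g w))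
            (fl_of S (hfac F hF) (h1 hw) hw0 _)
          refine ⟨Function.update s X g, ?_, ?_⟩
          · refine con_attach S hfac hG2 hF hF' hn hR h1 h2 hs hg ?_
            intro v hv hv0
            rw [hs2 v (h1 hv) hv0]
            exact (hg w (h2 hw) v (h2 hv) hw0 hv0).symm
          · intro v _ _
            rw [Function.update_self]
        · obtain ⟨s, hs, hs2⟩ := ih X hX g hg
          refine ⟨_, hext s hs, ?_⟩
          intro v hv hv0
          rw [Function.update_of_ne (fun e : X = F' => hn (e ▸ hX))]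
          exact hs2 v hv hv0
      · right
        refine ⟨fun R' a b c => mem_insert_of_mem (ih1 R' a b c), _, hext s hs, F1,
          mem_insert_of_mem hF1, hA1, u0, hu0, hu0', ?_⟩
        rw [Function.update_of_ne (fun e : F1 = F' => hn (e ▸ hF1))]
        exact hsu
  | glue 𝓕 G F F' R A h hF hF' hne hR h1 h2 hG hA hAR hs ih =>
    obtain ⟨hfac, hG2, ih⟩ := ih
    have hcA := S.cA
    -- sections which agree at one vertex of `R` stay sections
    have hkeep : ∀ s, Con A0 tr 𝓕 G s → ∀ u ∈ R, u ∉ A0 → s F u = s F' u →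
        Con A0 tr 𝓕 (insert R G) s := by
      intro s hs' u hu hu0 he
      refine ⟨hs'.1, ?_⟩
      intro R' hR' X hX Y hY hRX hRY v hv hv0
      rcases mem_insert.1 hR' with rfl | hR'
      · have key : ∀ Z ∈ 𝓕, R' ⊆ Z → s Z v = s F v := by
          intro Z hZ hRZ
          rcases S.two R' hR F F' Z (hfac F hF) (hfac F' hF') (hfac Z hZ) h1 h2 hRZ with
            h3 | h3 | h3
          · exact absurd h3 hne
          · rw [h3]
          · rw [← h3, hs'.1 F' hF' u (h2 hu) v (h2 hv) hu0 hv0,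
              hs'.1 F hF u (h1 hu) v (h1 hv) hu0 hv0, he]
        rw [key X hX hRX, key Y hY hRY]
      · exact hs'.2 R' hR' X hX Y hY hRX hRY v hv hv0
    refine ⟨hfac, ?_, ?_⟩
    · intro R' hR'
      rcases mem_insert.1 hR' with rfl | hR'
      · exact ⟨hR, F, hF, F', hF', hne, h1, h2⟩
      · exact hG2 R' hR'
    · by_cases hAA : ∃ u ∈ A, u ∉ A0
      · obtain ⟨u, hu, hu0⟩ := hAA
        have hk : ∀ s, Con A0 tr 𝓕 G s → Con A0 tr 𝓕 (insert R G) s := fun s hs' =>
          hkeep s hs' u (hAR hu) hu0 (con_same hs' hs hu hu0)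
        rcases ih with ih | ⟨ih1, s, hs', F1, hF1, hA1, u0, hu0', hu0'', hsu⟩
        · left
          intro X hX g hg
          obtain ⟨s, hs', hs2⟩ := ih X hX g hg
          exact ⟨s, hk s hs', hs2⟩
        · right
          exact ⟨fun R' a b c => mem_insert_of_mem (ih1 R' a b c), s, hk s hs', F1, hF1, hA1,
            u0, hu0', hu0'', hsu⟩
      · push Not at hAA
        have hA0 : A = A0 := eq_of_subset_of_card_le hAA (by omega)
        subst hA0
        rcases ih with ih | ⟨ih1, -⟩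
        · right
          have hAF : A ⊆ F := hAR.trans h1
          have hAF' : A ⊆ F' := hAR.trans h2
          constructor
          · intro R' hR' hAR' hx
            by_contra hcon
            rw [mem_insert, not_or] at hcon
            obtain ⟨hc1, hc2⟩ := hcon
            rcases ridge_cover S (hfac F hF) (hfac F' hF') hne hAF hAF' hR' hAR' hx with h3 | h3
            · obtain ⟨R1, hR1, hAR1, hR1F⟩ := step_out hs hne
              rcases ridge_two S (S.card F (hfac F hF)) hR hR' (hG2 R1 hR1).1 hAR hAR' hAR1 h1 h3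
                hR1F (fun e => hc1 e.symm) with h4 | h4
              · exact hG (h4 ▸ hR1)
              · exact hc2 (h4 ▸ hR1)
            · obtain ⟨R1, hR1, hAR1, hR1F⟩ := step_in hs hne
              rcases ridge_two S (S.card F' (hfac F' hF')) hR hR' (hG2 R1 hR1).1 hAR hAR' hAR1 h2
                h3 hR1F (fun e => hc1 e.symm) with h4 | h4
              · exact hG (h4 ▸ hR1)
              · exact hc2 (h4 ▸ hR1)
          · obtain ⟨x, hx, hx0⟩ := exists_out (A0 := A) (F := R) (by omega)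
            obtain ⟨s, hs', hs2⟩ := ih F hF (fun v => tr x v c0)
              (fl_of S (hfac F hF) (h1 hx) hx0 _)
            have hFL := S.sub F (hfac F hF) hAF
            have hz : ∀ u ∈ F, u ∉ A → s F u = c0 := by
              intro u hu hu0
              rw [hs2 u hu hu0]
              exact S.near x (hFL (mem_sdiff.2 ⟨h1 hx, hx0⟩)) u (hFL (mem_sdiff.2 ⟨hu, hu0⟩))
            obtain ⟨-, hz'⟩ := con_near S hfac (fun R hR => (hG2 R hR).1) hs' hs hAF hz
            refine ⟨s, hkeep s hs' x hx hx0 ?_, F, hF, hAF, x, h1 hx, hx0, hz x (h1 hx) hx0⟩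
            rw [hz x (h1 hx) hx0, hz' x (h2 hx) hx0]
        · exact absurd (ih1 R hR hAR ⟨F, hfac F hF, h1⟩) hG

/-- **Main criterion.** -/
theorem not_isLC (S : Sys d K A0 L tr c0) (hK : IsCx K) (hex : ∃ F, IsFacet K F ∧ A0 ⊆ F)
    (hno : ¬ ∃ g : V → C, (∀ F, IsFacet K F → Fl A0 tr F g) ∧ ∃ u0 ∈ L, u0 ∉ A0 ∧ g u0 = c0) :
    ¬ IsLC d K := by
  rintro ⟨-, -, 𝓕, G, hst, hall, hsame⟩
  apply hno
  have hcA := S.cA
  obtain ⟨hfac, hG2, hinv⟩ := inv_stage S hst
  obtain ⟨s, hs, F1, hF1, hA1, u0, hu0, hu0', hsu⟩ : ∃ s, Con A0 tr 𝓕 G s ∧ ∃ F1 ∈ 𝓕, A0 ⊆ F1 ∧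
      ∃ u0 ∈ F1, u0 ∉ A0 ∧ s F1 u0 = c0 := by
    rcases hinv with h | ⟨-, h⟩
    · obtain ⟨F1, hF1, hA1⟩ := hex
      have hF1' := hall F1 hF1
      obtain ⟨x, hx, hx0⟩ := exists_out (A0 := A0) (F := F1) (by have := S.card F1 hF1; omega)
      obtain ⟨s, hs, hs2⟩ := h F1 hF1' (fun v => tr x v c0) (fl_of S hF1 hx hx0 _)
      refine ⟨s, hs, F1, hF1', hA1, x, hx, hx0, ?_⟩
      rw [hs2 x hx hx0]
      exact S.idt F1 hF1 x hx hx0 c0
    · exact h
  classical
  -- the global section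
  let g : V → C := fun v => if hv : ∃ F ∈ 𝓕, v ∈ F then s hv.choose v else c0
  have hg : ∀ F ∈ 𝓕, ∀ v ∈ F, v ∉ A0 → g v = s F v := by
    intro F hF v hv hv0
    have hv' : ∃ F ∈ 𝓕, v ∈ F := ⟨F, hF, hv⟩
    have e : g v = s hv'.choose v := dif_pos hv'
    rw [e]
    have hc := hv'.choose_spec
    have hvK : ({v} : Finset V) ∈ K :=
      hK.2 F (hfac F hF).1 {v} (singleton_subset_iff.2 hv)
    exact con_same hs (hsame {v} hvK _ hc.1 F hF (singleton_subset_iff.2 hc.2)
      (singleton_subset_iff.2 hv)) (mem_singleton_self v) hv0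
  refine ⟨g, ?_, u0, S.sub F1 (hfac F1 hF1) hA1 (mem_sdiff.2 ⟨hu0, hu0'⟩), hu0', ?_⟩
  · intro F hF u hu v hv hu0 hv0
    have hF' := hall F hF
    rw [hg F hF' u hu hu0, hg F hF' v hv hv0]
    exact hs.1 F hF' u hu v hv hu0 hv0
  · rw [hg F1 hF1 u0 hu0 hu0']
    exact hsu

end

end Pool.Agent.N361.LC
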