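import Mathlib
import Pool.Agent.N361.LC.Defs
import Pool.Agent.H933R3.Evas

set_option autoImplicit false
set_option linter.unusedSectionVars false

/-!
# Cones: non-evasive, and balls if the base is a ball
-/

namespace Pool.Agent.N361.LC

open Finset Pool.Agent.H933R3

section ev
variable {V : Type} [DecidableEq V]

/-- **Cones are non-evasive.** -/
theorem nonEvasive_of_apex (a : V) : ∀ (k : ℕ) (K : Finset (Finset V)), K.card = k → IsCx K →
    {a} ∈ K → (∀ σ ∈ K, insert a σ ∈ K) → NonEvasive K := by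
  intro k
  induction k using Nat.strong_induction_on with
  | _ k ih =>
    intro K hk hK ha hc
    by_cases hv : ∃ v, v ≠ a ∧ {v} ∈ K
    · obtain ⟨v, hva, hvK⟩ := hv
      have hd : (del K v).card < k := by
        rw [← hk]
        apply card_lt_card
        refine ⟨filter_subset _ _, fun h => ?_⟩
        exact (mem_del.1 (h hvK)).2 (mem_singleton_self v)
      have hl : (link K v).card < k := by
        rw [← hk]
        apply card_lt_card
        refine ⟨filter_subset _ _, fun h => ?_⟩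
        have := h hvK
        rw [link, mem_filter] at this
        exact this.2.1 (mem_singleton_self v)
      refine NonEvasive.step K v hvK (ih _ hd _ rfl (hK.del v) ?_ ?_) (ih _ hl _ rfl (hK.link hvK) ?_ ?_)
      · exact mem_del.2 ⟨ha, fun h => hva (mem_singleton.1 h)⟩
      · intro σ hσ
        rw [mem_del] at hσ ⊢
        refine ⟨hc σ hσ.1, ?_⟩
        rw [mem_insert, not_or]
        exact ⟨hva, hσ.2⟩
      · rw [mem_link hK]
        refine ⟨fun h => hva (mem_singleton.1 h), ?_⟩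
        have := hc _ hvK
        rwa [pair_comm] at this
      · intro σ hσ
        rw [mem_link hK] at hσ ⊢
        refine ⟨?_, ?_⟩
        · rw [mem_insert, not_or]
          exact ⟨hva, hσ.1⟩
        · rw [insert_comm]
          exact hc _ hσ.2
    · push Not at hv
      have hall : ∀ σ ∈ K, ∀ v ∈ σ, v = a := by
        intro σ hσ v hvσ
        by_contra hne
        exact hv v hne (hK.2 σ hσ _ (singleton_subset_iff.2 hvσ))
      have hKe : K = {∅, {a}} := by
        ext σ
        rw [mem_insert, mem_singleton]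
        constructor
        · intro hσ
          rcases eq_empty_or_nonempty σ with h | ⟨v, h⟩
          · exact Or.inl h
          · right
            ext w
            rw [mem_singleton]
            constructor
            · exact fun hw => hall σ hσ w hw
            · rintro rfl
              rw [← hall σ hσ v h]
              exact h
        · rintro (rfl | rfl)
          · exact hK.1
          · exact ha
      rw [hKe]
      exact NonEvasive.point a

end ev

section cone
variable {n : ℕ}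

/-- the trace of a set of vertices on the first `n` vertices -/
def dn (σ : Finset (Fin (n + 1))) : Finset (Fin n) := univ.filter (fun i => i.castSucc ∈ σ)

theorem mem_dn {σ : Finset (Fin (n + 1))} {i : Fin n} : i ∈ dn σ ↔ i.castSucc ∈ σ := by
  simp [dn]

/-- the cone over `K`; the apex is the last vertex -/
def coneC (K : Finset (Finset (Fin n))) : Finset (Finset (Fin (n + 1))) :=
  univ.filter (fun σ => dn σ ∈ K)

theorem mem_coneC {K : Finset (Finset (Fin n))} {σ : Finset (Fin (n + 1))} :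
    σ ∈ coneC K ↔ dn σ ∈ K := by
  simp [coneC]

theorem isCx_coneC {K : Finset (Finset (Fin n))} (hK : IsCx K) : IsCx (coneC K) := by
  refine ⟨?_, ?_⟩
  · rw [mem_coneC]
    have : dn (∅ : Finset (Fin (n + 1))) = ∅ := by
      ext i; simp [mem_dn]
    rw [this]
    exact hK.1
  · intro σ hσ τ hτ
    rw [mem_coneC] at *
    refine hK.2 _ hσ _ ?_
    intro i hi
    rw [mem_dn] at *
    exact hτ hi

theorem dn_insert_last (σ : Finset (Fin (n + 1))) : dn (insert (Fin.last n) σ) = dn σ := by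
  ext i
  rw [mem_dn, mem_dn, mem_insert]
  constructor
  · rintro (h | h)
    · exact absurd h (Fin.castSucc_ne_last i)
    · exact h
  · exact Or.inr

theorem nonEvasive_coneC {K : Finset (Finset (Fin n))} (hK : IsCx K) : NonEvasive (coneC K) := by
  refine nonEvasive_of_apex (Fin.last n) _ (coneC K) rfl (isCx_coneC hK) ?_ ?_
  · have h := (isCx_coneC hK).1
    rw [mem_coneC] at h ⊢
    have e : ({Fin.last n} : Finset (Fin (n + 1))) = insert (Fin.last n) ∅ := by simp
    rw [e, dn_insert_last]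
    exact h
  · intro σ hσ
    rw [mem_coneC] at *
    rw [dn_insert_last]
    exact hσ

/-! ### The realization -/

/-- two quotients of a compact space with the same fibres are homeomorphic -/
theorem homeo_of_ker {P X Y : Type} [TopologicalSpace P] [CompactSpace P] [TopologicalSpace X]
    [T2Space X] [TopologicalSpace Y] [T2Space Y] (q1 : P → X) (q2 : P → Y) (h1 : Continuous q1)
    (h2 : Continuous q2) (s1 : Function.Surjective q1) (s2 : Function.Surjective q2)
    (hk : ∀ p p', q1 p = q1 p' ↔ q2 p = q2 p') : Nonempty (X ≃ₜ Y) := by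
  let f1 : C(P, X) := ⟨q1, h1⟩
  let f2 : C(P, Y) := ⟨q2, h2⟩
  have Q1 : Topology.IsQuotientMap f1 := Topology.IsQuotientMap.of_surjective_continuous s1 h1
  have Q2 : Topology.IsQuotientMap f2 := Topology.IsQuotientMap.of_surjective_continuous s2 h2
  have e1 := Q1.homeomorph
  have e2 := Q2.homeomorph
  have hs : Setoid.ker f1 = Setoid.ker f2 := by
    ext p p'
    exact hk p p'
  rw [hs] at e1
  exact ⟨e1.symm.trans e2⟩

/-- the cone over the ball -/
def D (d : ℕ) : Set (EuclideanSpace ℝ (Fin d) × ℝ) := {p | ‖p.1‖ + p.2 ≤ 1 ∧ 0 ≤ p.2}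

theorem D_convex (d : ℕ) : Convex ℝ (D d) := by
  intro p hp q hq s t hs ht hst
  obtain ⟨hp1, hp2⟩ := (hp : ‖p.1‖ + p.2 ≤ 1 ∧ 0 ≤ p.2)
  obtain ⟨hq1, hq2⟩ := (hq : ‖q.1‖ + q.2 ≤ 1 ∧ 0 ≤ q.2)
  show ‖s • p.1 + t • q.1‖ + (s • p.2 + t • q.2) ≤ 1 ∧ 0 ≤ s • p.2 + t • q.2
  have h1 : ‖s • p.1 + t • q.1‖ ≤ s * ‖p.1‖ + t * ‖q.1‖ := by
    refine (norm_add_le _ _).trans ?_
    rw [norm_smul, norm_smul, Real.norm_of_nonneg hs, Real.norm_of_nonneg ht]
  rw [smul_eq_mul, smul_eq_mul]
  constructor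
  · nlinarith
  · positivity

theorem D_closed (d : ℕ) : IsClosed (D d) := by
  have h1 : IsClosed {p : EuclideanSpace ℝ (Fin d) × ℝ | ‖p.1‖ + p.2 ≤ 1} :=
    isClosed_le (by fun_prop) (by fun_prop)
  have h2 : IsClosed {p : EuclideanSpace ℝ (Fin d) × ℝ | 0 ≤ p.2} :=
    isClosed_le (by fun_prop) (by fun_prop)
  exact h1.inter h2

theorem D_bounded (d : ℕ) : Bornology.IsBounded (D d) := by
  apply Metric.isBounded_closedBall (x := (0 : EuclideanSpace ℝ (Fin d) × ℝ)) (r := 1) |>.subset
  intro p hp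
  obtain ⟨hp1, hp2⟩ := (hp : ‖p.1‖ + p.2 ≤ 1 ∧ 0 ≤ p.2)
  rw [mem_closedBall_zero_iff, Prod.norm_def]
  apply max_le
  · linarith
  · rw [Real.norm_eq_abs, abs_of_nonneg hp2]
    have := norm_nonneg p.1
    linarith

theorem D_int (d : ℕ) : (interior (D d)).Nonempty := by
  refine ⟨(0, 1 / 2), ?_⟩
  have ho1 : IsOpen {p : EuclideanSpace ℝ (Fin d) × ℝ | ‖p.1‖ + p.2 < 1} :=
    isOpen_lt (by fun_prop) (by fun_prop)
  have ho2 : IsOpen {p : EuclideanSpace ℝ (Fin d) × ℝ | 0 < p.2} :=
    isOpen_lt (by fun_prop) (by fun_prop)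
  have ho : IsOpen {p : EuclideanSpace ℝ (Fin d) × ℝ | ‖p.1‖ + p.2 < 1 ∧ 0 < p.2} :=
    ho1.inter ho2
  refine interior_maximal (fun p hp => ?_) ho ?_
  · obtain ⟨hp1, hp2⟩ := (hp : ‖p.1‖ + p.2 < 1 ∧ 0 < p.2)
    exact ⟨hp1.le, hp2.le⟩
  · show ‖(0 : EuclideanSpace ℝ (Fin d))‖ + (1 / 2 : ℝ) < 1 ∧ (0 : ℝ) < 1 / 2
    rw [norm_zero]
    norm_num

theorem D_ball (d : ℕ) :
    Nonempty (D d ≃ₜ Metric.closedBall (0 : EuclideanSpace ℝ (Fin (d + 1))) 1) := by
  let e : (EuclideanSpace ℝ (Fin d) × ℝ) ≃L[ℝ] EuclideanSpace ℝ (Fin (d + 1)) :=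
    ContinuousLinearEquiv.ofFinrankEq (by simp)
  have hc : Convex ℝ (e.symm ⁻¹' (D d)) := (D_convex d).linear_preimage e.symm.toLinearMap
  have hcl : IsClosed (e.symm ⁻¹' (D d)) := (D_closed d).preimage e.symm.continuous
  have hint : (interior (e.symm ⁻¹' (D d))).Nonempty := by
    have : interior (e.symm ⁻¹' (D d)) = e.symm ⁻¹' interior (D d) :=
      (e.symm.toHomeomorph.preimage_interior (D d)).symm
    rw [this]
    obtain ⟨x, hx⟩ := D_int d
    refine ⟨e x, ?_⟩
    show e.symm (e x) ∈ interior (D d)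
    rw [ContinuousLinearEquiv.symm_apply_apply]
    exact hx
  have himg : e.symm ⁻¹' (D d) = e '' (D d) := by
    ext x
    constructor
    · intro hx
      exact ⟨e.symm x, hx, by simp⟩
    · rintro ⟨y, hy, rfl⟩
      show e.symm (e y) ∈ D d
      rw [ContinuousLinearEquiv.symm_apply_apply]
      exact hy
  have hb : Bornology.IsBounded (e.symm ⁻¹' (D d)) := by
    rw [himg]
    exact e.lipschitz.isBounded_image (D_bounded d)
  obtain ⟨h, -, h2, -⟩ := exists_homeomorph_image_interior_closure_frontier_eq_unitBall hc hint hb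
  rw [hcl.closure_eq, himg] at h2
  exact ⟨((e.toHomeomorph.image (D d)).trans (h.image (e '' D d))).trans (Homeomorph.setCongr h2)⟩

variable {d : ℕ} {K : Finset (Finset (Fin n))}

/-- the map onto the realization of the cone -/
noncomputable def q1 (x : Fin n → ℝ) (r : ℝ) : Fin (n + 1) → ℝ :=
  Fin.snoc (α := fun _ => ℝ) (fun i => (1 - r) * x i) r

theorem q1_last (x : Fin n → ℝ) (r : ℝ) : q1 x r (Fin.last n) = r := by
  unfold q1; rw [Fin.snoc_last]

theorem q1_cast (x : Fin n → ℝ) (r : ℝ) (i : Fin n) : q1 x r i.castSucc = (1 - r) * x i := by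
  unfold q1; rw [Fin.snoc_castSucc]

theorem q1_mem {x : Fin n → ℝ} (hx : x ∈ realization K) {r : ℝ} (hr0 : 0 ≤ r) (hr : r ≤ 1) :
    q1 x r ∈ realization (coneC K) := by
  obtain ⟨h0, h1, σ, hσ, h2⟩ := hx
  refine ⟨?_, ?_, ?_⟩
  · intro i
    refine Fin.lastCases ?_ (fun i => ?_) i
    · rw [q1_last]; exact hr0
    · rw [q1_cast]; exact mul_nonneg (by linarith) (h0 i)
  · rw [Fin.sum_univ_castSucc, q1_last]
    have : ∑ i : Fin n, q1 x r i.castSucc = (1 - r) * ∑ i, x i := by
      rw [mul_sum]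
      exact sum_congr rfl fun i _ => q1_cast x r i
    rw [this, h1]
    ring
  · refine ⟨insert (Fin.last n) (σ.map Fin.castSuccEmb), ?_, ?_⟩
    · rw [mem_coneC, dn_insert_last]
      have : dn (σ.map Fin.castSuccEmb) = σ := by
        ext i
        rw [mem_dn]
        exact mem_map' Fin.castSuccEmb
      rw [this]
      exact hσ
    · intro i
      refine Fin.lastCases ?_ (fun i => ?_) i
      · intro hi
        exact absurd (mem_insert_self _ _) hi
      · intro hi
        rw [q1_cast, h2 i, mul_zero]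
        intro hiσ
        exact hi (mem_insert_of_mem (mem_map.2 ⟨i, hiσ, rfl⟩))

theorem q1_surj {y : Fin (n + 1) → ℝ} (hy : y ∈ realization (coneC K)) :
    ∃ r : ℝ, (0 ≤ r ∧ r ≤ 1) ∧ (r = 1 → ∀ x, q1 x r = y) ∧
      (r ≠ 1 → ∃ x ∈ realization K, q1 x r = y) := by
  obtain ⟨h0, h1, s, hs, h2⟩ := hy
  rw [Fin.sum_univ_castSucc] at h1
  have hS : 0 ≤ ∑ i : Fin n, y i.castSucc := sum_nonneg fun i _ => h0 _
  have hr0 := h0 (Fin.last n)
  refine ⟨y (Fin.last n), ⟨hr0, by linarith⟩, ?_, ?_⟩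
  · intro hr x
    have hz : ∑ i : Fin n, y i.castSucc = 0 := by linarith
    have hz' := (sum_eq_zero_iff_of_nonneg fun (i : Fin n) _ => h0 i.castSucc).1 hz
    funext i
    refine Fin.lastCases ?_ (fun i => ?_) i
    · rw [q1_last]
    · rw [q1_cast, hr, hz' i (mem_univ _)]
      ring
  · intro hr
    have hlt : 0 < 1 - y (Fin.last n) := by
      have h3 : y (Fin.last n) ≤ 1 := by linarith
      have := lt_of_le_of_ne h3 hr
      linarith
    refine ⟨fun i => y i.castSucc / (1 - y (Fin.last n)), ⟨?_, ?_, dn s, mem_coneC.1 hs, ?_⟩, ?_⟩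
    · intro i
      exact div_nonneg (h0 _) hlt.le
    · rw [← sum_div, div_eq_one_iff_eq hlt.ne']
      linarith
    · intro i hi
      show y i.castSucc / _ = 0
      rw [h2 _ (fun h => hi (mem_dn.2 h)), zero_div]
    · funext i
      refine Fin.lastCases ?_ (fun i => ?_) i
      · rw [q1_last]
      · rw [q1_cast]
        field_simp

theorem q1_eq_iff {x x' : Fin n → ℝ} {r r' : ℝ} :
    q1 x r = q1 x' r' ↔ r = r' ∧ (r = 1 ∨ x = x') := by
  constructor
  · intro h
    have hr : r = r' := by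
      have := congrFun h (Fin.last n)
      rwa [q1_last, q1_last] at this
    refine ⟨hr, ?_⟩
    subst hr
    by_cases h2 : r = 1
    · exact Or.inl h2
    · right
      have h3 : 1 - r ≠ 0 := fun h4 => h2 (by linarith)
      funext i
      have := congrFun h i.castSucc
      rw [q1_cast, q1_cast] at this
      exact mul_left_cancel₀ h3 this
  · rintro ⟨rfl, h | rfl⟩
    · funext i
      refine Fin.lastCases ?_ (fun i => ?_) i
      · rw [q1_last, q1_last]
      · rw [q1_cast, q1_cast, h]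
        ring
    · rfl

/-- **The cone over a triangulated `d`-ball is a triangulated `(d+1)`-ball.** -/
theorem isBall_coneC (hK : IsBall d K) : IsBall (d + 1) (coneC K) := by
  obtain ⟨h⟩ := hK
  have : CompactSpace (Metric.closedBall (0 : EuclideanSpace ℝ (Fin d)) 1) :=
    isCompact_iff_compactSpace.1 (isCompact_closedBall 0 1)
  let P := Metric.closedBall (0 : EuclideanSpace ℝ (Fin d)) 1 × Set.Icc (0 : ℝ) 1
  let Q1 : P → realization (coneC K) := fun p =>
    ⟨q1 (h.symm p.1).1 p.2.1, q1_mem (h.symm p.1).2 p.2.2.1 p.2.2.2⟩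
  let Q2 : P → D d := fun p => ⟨((1 - p.2.1) • p.1.1, p.2.1), by
    have h0 : 0 ≤ p.2.1 := p.2.2.1
    have h1 : p.2.1 ≤ 1 := p.2.2.2
    have h2 : ‖(p.1.1 : EuclideanSpace ℝ (Fin d))‖ ≤ 1 := mem_closedBall_zero_iff.1 p.1.2
    show ‖(1 - p.2.1) • (p.1.1 : EuclideanSpace ℝ (Fin d))‖ + p.2.1 ≤ 1 ∧ 0 ≤ p.2.1
    refine ⟨?_, h0⟩
    rw [norm_smul, Real.norm_of_nonneg (by linarith)]
    nlinarith [norm_nonneg (p.1.1 : EuclideanSpace ℝ (Fin d))]⟩
  have c1 : Continuous Q1 := by
    apply Continuous.subtype_mk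
    apply continuous_pi
    intro i
    have hr : Continuous fun p : P => (p.2.1 : ℝ) := continuous_subtype_val.comp continuous_snd
    have hx : ∀ j : Fin n, Continuous fun p : P => (h.symm p.1).1 j := fun j =>
      (continuous_apply j).comp (continuous_subtype_val.comp (h.symm.continuous.comp continuous_fst))
    refine Fin.lastCases ?_ (fun i => ?_) i
    · simp only [q1_last]
      exact hr
    · simp only [q1_cast]
      exact (continuous_const.sub hr).mul (hx i)
  have c2 : Continuous Q2 := by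
    apply Continuous.subtype_mk
    have hr : Continuous fun p : P => (p.2.1 : ℝ) := continuous_subtype_val.comp continuous_snd
    have hx : Continuous fun p : P => (p.1.1 : EuclideanSpace ℝ (Fin d)) :=
      continuous_subtype_val.comp continuous_fst
    exact ((continuous_const.sub hr).smul hx).prodMk hr
  have s1 : Function.Surjective Q1 := by
    rintro ⟨y, hy⟩
    obtain ⟨r, hr, h1, h2⟩ := q1_surj hy
    by_cases hr1 : r = 1
    · refine ⟨(⟨0, by simp⟩, ⟨r, hr⟩), ?_⟩
      exact Subtype.ext (h1 hr1 _)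
    · obtain ⟨x, hx, hxy⟩ := h2 hr1
      refine ⟨(h ⟨x, hx⟩, ⟨r, hr⟩), ?_⟩
      apply Subtype.ext
      show q1 (h.symm (h ⟨x, hx⟩)).1 r = y
      rw [h.symm_apply_apply]
      exact hxy
  have s2 : Function.Surjective Q2 := by
    rintro ⟨⟨z, r⟩, hz⟩
    obtain ⟨hz', hr0⟩ := (hz : ‖z‖ + r ≤ 1 ∧ 0 ≤ r)
    have hr : r ≤ 1 := by linarith [norm_nonneg z]
    by_cases hr1 : r = 1
    · refine ⟨(⟨0, by simp⟩, ⟨r, hr0, hr⟩), ?_⟩
      apply Subtype.ext
      have hz0 : z = 0 := by
        rw [hr1] at hz'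
        exact norm_eq_zero.1 (le_antisymm (by linarith) (norm_nonneg z))
      show ((1 - r) • (0 : EuclideanSpace ℝ (Fin d)), r) = (z, r)
      rw [smul_zero, hz0]
    · have hlt : 0 < 1 - r := by
        have := lt_of_le_of_ne hr hr1
        linarith
      refine ⟨(⟨(1 - r)⁻¹ • z, ?_⟩, ⟨r, hr0, hr⟩), ?_⟩
      · rw [mem_closedBall_zero_iff, norm_smul, norm_inv, Real.norm_of_nonneg hlt.le,
          inv_mul_le_iff₀ hlt]
        linarith
      · apply Subtype.ext
        show ((1 - r) • ((1 - r)⁻¹ • z), r) = (z, r)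
        rw [smul_inv_smul₀ hlt.ne']
  have hk : ∀ p p', Q1 p = Q1 p' ↔ Q2 p = Q2 p' := by
    rintro ⟨z, r⟩ ⟨z', r'⟩
    have e1 : Q1 (z, r) = Q1 (z', r') ↔ r.1 = r'.1 ∧ (r.1 = 1 ∨ z = z') := by
      rw [Subtype.ext_iff]
      show q1 (h.symm z).1 r.1 = q1 (h.symm z').1 r'.1 ↔ _
      rw [q1_eq_iff]
      have e3 : (h.symm z).1 = (h.symm z').1 ↔ z = z' :=
        Subtype.ext_iff.symm.trans h.symm.injective.eq_iff
      rw [e3]
    have e2 : Q2 (z, r) = Q2 (z', r') ↔ r.1 = r'.1 ∧ (r.1 = 1 ∨ z = z') := by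
      rw [Subtype.ext_iff]
      show ((1 - r.1) • z.1, r.1) = ((1 - r'.1) • z'.1, r'.1) ↔ _
      rw [Prod.mk.injEq]
      constructor
      · rintro ⟨h1, h2⟩
        refine ⟨h2, ?_⟩
        rw [← h2] at h1
        by_cases h3 : r.1 = 1
        · exact Or.inl h3
        · right
          have h4 : 1 - r.1 ≠ 0 := fun h5 => h3 (by linarith)
          exact Subtype.ext (smul_right_injective _ h4 h1)
      · rintro ⟨h1, h2 | h2⟩
        · refine ⟨?_, h1⟩
          rw [← h1, h2, sub_self, zero_smul, zero_smul]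
        · rw [h2, h1]
          exact ⟨rfl, rfl⟩
    rw [e1, e2]
  obtain ⟨e⟩ := homeo_of_ker Q1 Q2 c1 c2 s1 s2 hk
  obtain ⟨e'⟩ := D_ball d
  exact ⟨e.trans e'⟩

end cone

end Pool.Agent.N361.LC
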