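import Mathlib
import Pool.Agent.N361.LC.Cone
import Pool.Agent.V11126.Cons.Real
import Pool.Agent.H933R3.Ball
import Pool.Agent.H933R3.Bits

set_option autoImplicit false
set_option linter.unusedSectionVars false

/-!
# A triangulated 3-ball with a knotted spanning edge

The ball has 36 tetrahedra and the 12 vertices `0, ..., 11`; the edge `{10, 11}` is knotted.
-/

namespace Pool.Agent.N361.LC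

open Finset Pool.Agent.H933R3 Pool.Agent.V11126.Cons

/-- the 36 tetrahedra of the ball, as bit masks -/
def Bk : List ℕ := [
  23, 75, 531, 579, 1037, 2069, 3077, 329, 1289, 2097, 1185, 3105, 1409, 278, 2122, 1298,
  1554, 1218, 2242, 1602, 1410, 1068, 2324, 2340, 3108, 1176, 2200, 1304, 2328, 1192, 2376,
  2160, 1232, 2256, 2400, 15]

/-- a sequence of stellar moves from the ball to a single tetrahedron -/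
def mvs : List Mv := [
  ⟨0, 3072, 12, 10, [10, 11]⟩, ⟨1, 37, 12, 0, [0, 2, 5]⟩, ⟨0, 2049, 12, 0, [0, 11]⟩,
  ⟨1, 52, 12, 2, [2, 4, 5]⟩, ⟨0, 1042, 12, 1, [1, 4, 10]⟩, ⟨1, 768, 12, 8, [8, 9]⟩,
  ⟨0, 2052, 12, 2, [2, 11]⟩, ⟨1, 304, 12, 4, [4, 5, 8]⟩, ⟨0, 768, 12, 8, [8, 9]⟩,
  ⟨1, 1042, 12, 1, [1, 4, 10]⟩, ⟨0, 192, 12, 6, [6, 7]⟩, ⟨1, 3072, 12, 10, [10, 11]⟩,
  ⟨0, 1028, 12, 2, [2, 10]⟩, ⟨1, 41, 12, 0, [0, 3, 5]⟩, ⟨0, 2080, 12, 5, [5, 11]⟩,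
  ⟨1, 336, 12, 4, [4, 6, 8]⟩, ⟨0, 72, 12, 3, [3, 6]⟩, ⟨1, 2049, 12, 0, [0, 11]⟩,
  ⟨0, 144, 12, 4, [4, 7]⟩, ⟨1, 3080, 12, 3, [3, 10, 11]⟩, ⟨0, 24, 12, 3, [3, 4]⟩,
  ⟨1, 3328, 12, 8, [8, 10, 11]⟩, ⟨1, 34, 2, 1, [1, 5]⟩, ⟨0, 264, 2, 3, [3, 8]⟩,
  ⟨1, 3073, 2, 0, [0, 10, 11]⟩, ⟨0, 66, 2, 1, [1, 6]⟩, ⟨1, 2560, 2, 9, [9, 11]⟩,
  ⟨0, 136, 2, 3, [3, 7]⟩, ⟨1, 2080, 2, 5, [5, 11]⟩, ⟨0, 2560, 2, 9, [9, 11]⟩,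
  ⟨1, 66, 2, 1, [1, 6]⟩, ⟨0, 2064, 2, 4, [4, 11]⟩, ⟨1, 1344, 2, 6, [6, 8, 10]⟩,
  ⟨0, 3073, 2, 0, [0, 10, 11]⟩, ⟨1, 264, 2, 3, [3, 8]⟩, ⟨0, 1056, 2, 5, [5, 10]⟩,
  ⟨1, 136, 2, 3, [3, 7]⟩, ⟨0, 1025, 2, 0, [0, 10]⟩, ⟨1, 392, 2, 3, [3, 7, 8]⟩,
  ⟨0, 1032, 2, 3, [3, 10]⟩, ⟨1, 2432, 2, 7, [7, 8, 11]⟩, ⟨0, 1344, 2, 6, [6, 8, 10]⟩,
  ⟨1, 2064, 2, 4, [4, 11]⟩, ⟨0, 35, 2, 0, [0, 1, 5]⟩, ⟨1, 24, 2, 3, [3, 4]⟩,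
  ⟨1, 1025, 9, 0, [0, 10]⟩, ⟨0, 3328, 2, 8, [8, 10, 11]⟩, ⟨1, 144, 2, 4, [4, 7]⟩,
  ⟨0, 24, 2, 3, [3, 4]⟩, ⟨1, 35, 2, 0, [0, 1, 5]⟩, ⟨0, 18, 2, 1, [1, 4]⟩,
  ⟨1, 1056, 2, 5, [5, 10]⟩, ⟨0, 264, 2, 3, [3, 8]⟩, ⟨1, 2177, 2, 0, [0, 7, 11]⟩,
  ⟨0, 2304, 2, 8, [8, 11]⟩, ⟨1, 192, 2, 6, [6, 7]⟩, ⟨0, 2064, 2, 4, [4, 11]⟩,
  ⟨1, 1216, 2, 6, [6, 7, 10]⟩, ⟨0, 144, 2, 4, [4, 7]⟩, ⟨1, 1344, 2, 6, [6, 8, 10]⟩,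
  ⟨0, 136, 2, 3, [3, 7]⟩, ⟨1, 2081, 2, 0, [0, 5, 11]⟩, ⟨1, 2082, 3, 1, [1, 5, 11]⟩,
  ⟨0, 1056, 2, 5, [5, 10]⟩, ⟨1, 18, 2, 1, [1, 4]⟩, ⟨1, 1056, 4, 5, [5, 10]⟩,
  ⟨0, 3072, 2, 10, [10, 11]⟩, ⟨1, 194, 2, 1, [1, 6, 7]⟩, ⟨0, 66, 2, 1, [1, 6]⟩,
  ⟨1, 3072, 2, 10, [10, 11]⟩, ⟨0, 3, 2, 0, [0, 1]⟩, ⟨1, 3104, 2, 5, [5, 10, 11]⟩,
  ⟨1, 2304, 1, 8, [8, 11]⟩, ⟨0, 1152, 1, 7, [7, 10]⟩, ⟨1, 2368, 1, 6, [6, 8, 11]⟩,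
  ⟨0, 2112, 1, 6, [6, 11]⟩, ⟨1, 1152, 1, 7, [7, 10]⟩, ⟨0, 2049, 1, 0, [0, 11]⟩,
  ⟨1, 1184, 1, 5, [5, 7, 10]⟩, ⟨1, 416, 11, 5, [5, 7, 8]⟩, ⟨0, 1280, 1, 8, [8, 10]⟩,
  ⟨1, 224, 1, 5, [5, 6, 7]⟩, ⟨1, 1280, 6, 8, [8, 10]⟩, ⟨1, 289, 7, 0, [0, 5, 8]⟩]

/-- the ball -/
def base : Finset (Finset (Fin 12)) := univ.filter (fun σ => ∃ q ∈ Bk, σ ⊆ decF 12 q)

theorem mem_base {σ : Finset (Fin 12)} : σ ∈ base ↔ ∃ q ∈ Bk, σ ⊆ decF 12 q := by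
  simp [base]

theorem isCx_base : IsCx base := by
  refine ⟨mem_base.2 ⟨23, by decide, empty_subset _⟩, ?_⟩
  intro σ hσ τ hτ
  obtain ⟨q, hq, h⟩ := mem_base.1 hσ
  exact mem_base.2 ⟨q, hq, hτ.trans h⟩

set_option maxRecDepth 100000 in
theorem run_ok : runM [1313] mvs Bk = true := by decide +kernel

theorem Bk_small : ∀ m ∈ Bk, m < 2 ^ 12 := by decide

theorem real_base : realization base = RF (toFam 12 Bk) := by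
  ext x
  constructor
  · rintro ⟨h0, h1, σ, hσ, h2⟩
    obtain ⟨q, hq, hσq⟩ := mem_base.1 hσ
    refine ⟨h0, h1, toFin 12 q, mem_toFam.2 ⟨q, hq, rfl⟩, ?_⟩
    intro i hi
    by_contra hcon
    refine hi (h2 i (fun h => hcon ?_))
    exact hσq h
  · rintro ⟨h0, h1, σ, hσ, h2⟩
    obtain ⟨q, hq, rfl⟩ := mem_toFam.1 hσ
    refine ⟨h0, h1, decF 12 q, mem_base.2 ⟨q, hq, Subset.refl _⟩, ?_⟩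
    intro i hi
    by_contra hcon
    exact hi (h2 i hcon)

theorem RF_simplex (F : Finset (Fin 12)) : RF ({F} : Finset (Finset (Fin 12))) =
    Pool.Agent.Helper175.NS.Sp ({F} : Finset (Finset (Fin 12))) := by
  ext x
  constructor
  · rintro ⟨h0, h1, σ, hσ, h2⟩
    rw [mem_singleton] at hσ
    subst hσ
    have h3 : ∀ v, v ∉ σ → x v = 0 := by
      intro v hv
      by_contra hcon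
      exact hv (h2 v hcon)
    refine ⟨h0, σ, mem_singleton_self _, h3, ?_⟩
    rw [← h1]
    exact sum_subset (subset_univ σ) (fun v _ hv => h3 v hv)
  · rintro ⟨h0, σ, hσ, h2, h1⟩
    refine ⟨h0, ?_, σ, hσ, ?_⟩
    · rw [← h1]
      exact (sum_subset (subset_univ σ) (fun v _ hv => h2 v hv)).symm
    · intro i hi
      by_contra hcon
      exact hi (h2 i hcon)

/-- **The base is a 3-ball.** -/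
theorem isBall_base : IsBall 3 base := by
  obtain ⟨e1⟩ := real_homeo (n := 12) (by norm_num) Bk Bk_small
  obtain ⟨e2⟩ := runM_homeo [1313] mvs Bk run_ok
  obtain ⟨e3⟩ := real_homeo (n := 12) (by norm_num) [1313] (by decide)
  obtain ⟨e4⟩ := simplex_ball (toFin 12 1313) 3 (by decide)
  have h5 : toFam 12 [1313] = {toFin 12 1313} := rfl
  rw [h5, RF_simplex] at e3
  unfold IsBall
  rw [real_base]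
  exact ⟨((e1.symm.trans e2).trans e3).trans e4⟩

end Pool.Agent.N361.LC
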