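import Mathlib
import Pool.Agent.N361.LC.Base
import Pool.Agent.N361.LC.Abs
import Pool.Agent.Helper175.NS.Local

set_option autoImplicit false
set_option linter.unusedSectionVars false

/-!
# Iterated cones over a ball with a knotted spanning edge
-/

namespace Pool.Agent.N361.LC

open Finset Pool.Agent.H933R3

/-- iterated cones over the base ball -/
def ball : (m : ℕ) → Finset (Finset (Fin (12 + m)))
  | 0 => base
  | m + 1 => coneC (ball m)

theorem mem_ball (m : ℕ) (σ : Finset (Fin (12 + m))) :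
    σ ∈ ball m ↔ ∃ q ∈ Bk, ∀ i ∈ σ, (i : ℕ) < 12 → q.testBit i = true := by
  induction m with
  | zero =>
    show σ ∈ base ↔ _
    rw [mem_base]
    constructor
    · rintro ⟨q, hq, h⟩
      exact ⟨q, hq, fun i hi _ => mem_decF.1 (h hi)⟩
    · rintro ⟨q, hq, h⟩
      exact ⟨q, hq, fun i hi => mem_decF.2 (h i hi i.2)⟩
  | succ m ih =>
    show σ ∈ coneC (ball m) ↔ _
    rw [mem_coneC, ih]
    constructor
    · rintro ⟨q, hq, h⟩
      refine ⟨q, hq, ?_⟩
      intro i hi hlt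
      have h1 : (i : ℕ) < 12 + m := by omega
      have h2 := h ⟨i, h1⟩ (mem_dn.2 (by
        have : (⟨i, h1⟩ : Fin (12 + m)).castSucc = i := Fin.ext rfl
        rw [this]; exact hi)) hlt
      exact h2
    · rintro ⟨q, hq, h⟩
      exact ⟨q, hq, fun i hi hlt => h i.castSucc (mem_dn.1 hi) hlt⟩

theorem isCx_ball (m : ℕ) : IsCx (ball m) := by
  induction m with
  | zero => exact isCx_base
  | succ m ih => exact isCx_coneC ih

theorem isBall_ball (m : ℕ) : IsBall (3 + m) (ball m) := by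
  induction m with
  | zero => exact isBall_base
  | succ m ih => exact isBall_coneC ih

theorem nonEvasive_ball (m : ℕ) : NonEvasive (ball (m + 1)) := nonEvasive_coneC (isCx_ball m)

/-- the facets -/
def Fq (m q : ℕ) : Finset (Fin (12 + m)) := univ.filter (fun i => (i : ℕ) < 12 → q.testBit i = true)

theorem mem_Fq {m q : ℕ} {i : Fin (12 + m)} : i ∈ Fq m q ↔ ((i : ℕ) < 12 → q.testBit i = true) := by
  simp [Fq]

theorem Bk_anti : ∀ q ∈ Bk, ∀ q' ∈ Bk, (∀ i ∈ List.range 12, q.testBit i = true →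
    q'.testBit i = true) → q = q' := by decide +kernel

theorem facet_Fq (m : ℕ) {q : ℕ} (hq : q ∈ Bk) : IsFacet (ball m) (Fq m q) := by
  refine ⟨(mem_ball m _).2 ⟨q, hq, fun i hi => mem_Fq.1 hi⟩, ?_⟩
  intro G hG hs
  obtain ⟨q', hq', h⟩ := (mem_ball m _).1 hG
  have e : q = q' := by
    apply Bk_anti q hq q' hq'
    intro i hi hb
    have hi' : i < 12 := List.mem_range.1 hi
    have h1 : i < 12 + m := by omega
    exact h ⟨i, h1⟩ (hs (mem_Fq.2 (fun _ => hb))) hi'
  subst e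
  apply Subset.antisymm _ hs
  intro i hi
  exact mem_Fq.2 (h i hi)

theorem facet_iff (m : ℕ) {F : Finset (Fin (12 + m))} (hF : IsFacet (ball m) F) :
    ∃ q ∈ Bk, F = Fq m q := by
  obtain ⟨q, hq, h⟩ := (mem_ball m _).1 hF.1
  refine ⟨q, hq, ?_⟩
  have h1 : F ⊆ Fq m q := fun i hi => mem_Fq.2 (h i hi)
  exact (hF.2 _ (facet_Fq m hq).1 h1).symm

/-- the codimension-two face -/
def A0 (m : ℕ) : Finset (Fin (12 + m)) := univ.filter (fun i => ¬ (i : ℕ) < 10)

theorem mem_A0 {m : ℕ} {i : Fin (12 + m)} : i ∈ A0 m ↔ ¬ (i : ℕ) < 10 := by simp [A0]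

theorem not_mem_A0 {m : ℕ} {i : Fin (12 + m)} : i ∉ A0 m ↔ (i : ℕ) < 10 := by
  rw [mem_A0, not_not]

theorem card_A0 (m : ℕ) : (A0 m).card = m + 2 := by
  have h1 : (A0 m)ᶜ = (univ : Finset (Fin 10)).map (Fin.castLEEmb (by omega : 10 ≤ 12 + m)) := by
    ext i
    rw [mem_compl, not_mem_A0, mem_map]
    constructor
    · intro h
      exact ⟨⟨i, h⟩, mem_univ _, Fin.ext rfl⟩
    · rintro ⟨j, -, rfl⟩
      exact j.2
  have h2 : (A0 m)ᶜ.card = 10 := by rw [h1, card_map]; rfl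
  rw [card_compl, Fintype.card_fin] at h2
  have h3 : (A0 m).card ≤ 12 + m := by
    have := card_le_univ (A0 m)
    rwa [Fintype.card_fin] at this
  omega

/-- the vertices of the link of the knotted edge in the base -/
def L3 (m : ℕ) : Finset (Fin (12 + m)) := ({0, 2, 5} : Finset (Fin 12)).map (Fin.castAddEmb m)

theorem mem_L3 {m : ℕ} {i : Fin (12 + m)} :
    i ∈ L3 m ↔ ((i : ℕ) = 0 ∨ (i : ℕ) = 2 ∨ (i : ℕ) = 5) := by
  rw [L3, mem_map]
  constructor
  · rintro ⟨j, hj, rfl⟩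
    rw [mem_insert, mem_insert, mem_singleton] at hj
    rcases hj with rfl | rfl | rfl
    · exact Or.inl rfl
    · exact Or.inr (Or.inl rfl)
    · exact Or.inr (Or.inr rfl)
  · rintro (h | h | h)
    · exact ⟨0, by simp, Fin.ext h.symm⟩
    · exact ⟨2, by simp, Fin.ext h.symm⟩
    · exact ⟨5, by simp, Fin.ext h.symm⟩

/-- the vertices below `10` of a facet -/
def lo (q : ℕ) : List ℕ := (List.range 10).filter (fun i => q.testBit i)

theorem mem_lo {q i : ℕ} : i ∈ lo q ↔ i < 10 ∧ q.testBit i = true := by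
  simp [lo]

/-- the transition functions -/
def tr (m : ℕ) (u v : Fin (12 + m)) (c : Fin 3) : Fin 3 := Pool.Agent.Helper175.NS.psi u v c

theorem chk_sub : ∀ q ∈ Bk, q.testBit 10 = true → q.testBit 11 = true →
    ∀ i ∈ lo q, i = 0 ∨ i = 2 ∨ i = 5 := by decide +kernel

theorem chk_idt : ∀ u ∈ List.range 10, ∀ c, Pool.Agent.Helper175.NS.psi u u c = c := by
  decide +kernel

theorem chk_coc : ∀ q ∈ Bk, ∀ u ∈ lo q, ∀ v ∈ lo q, ∀ w ∈ lo q, ∀ c,
    Pool.Agent.Helper175.NS.psi v w (Pool.Agent.Helper175.NS.psi u v c) =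
      Pool.Agent.Helper175.NS.psi u w c := by decide +kernel

theorem chk_near : ∀ u ∈ [0, 2, 5], ∀ v ∈ [0, 2, 5], Pool.Agent.Helper175.NS.psi u v 0 = 0 := by
  decide +kernel

theorem sys (m : ℕ) (hc : ∀ F, IsFacet (ball m) F → F.card = 3 + m + 1)
    (h2 : AtMostTwo (3 + m) (ball m)) : Sys (3 + m) (ball m) (A0 m) (L3 m) (tr m) (0 : Fin 3) := by
  refine ⟨hc, h2, ?_, ?_, ?_, ?_, ?_, ?_⟩
  · rw [card_A0]; omega
  · rw [L3, card_map]; rfl
  · intro F hF hA i hi
    obtain ⟨q, hq, rfl⟩ := facet_iff m hF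
    rw [mem_sdiff, not_mem_A0] at hi
    have h10 : (⟨10, by omega⟩ : Fin (12 + m)) ∈ Fq m q := hA (mem_A0.2 (by simp))
    have h11 : (⟨11, by omega⟩ : Fin (12 + m)) ∈ Fq m q := hA (mem_A0.2 (by simp))
    have b10 := mem_Fq.1 h10 (by simp)
    have b11 := mem_Fq.1 h11 (by simp)
    have bi := mem_Fq.1 hi.1 (by omega)
    exact mem_L3.2 (chk_sub q hq b10 b11 i (mem_lo.2 ⟨hi.2, bi⟩))
  · intro F _ u _ hu c
    exact chk_idt u (List.mem_range.2 (not_mem_A0.1 hu)) c
  · intro F hF u hu v hv w hw hu0 hv0 hw0 c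
    obtain ⟨q, hq, rfl⟩ := facet_iff m hF
    rw [not_mem_A0] at hu0 hv0 hw0
    exact chk_coc q hq u (mem_lo.2 ⟨hu0, mem_Fq.1 hu (by omega)⟩) v
      (mem_lo.2 ⟨hv0, mem_Fq.1 hv (by omega)⟩) w (mem_lo.2 ⟨hw0, mem_Fq.1 hw (by omega)⟩) c
  · intro u hu v hv
    refine chk_near u ?_ v ?_
    · simpa using mem_L3.1 hu
    · simpa using mem_L3.1 hv

/-- **The iterated cones are not locally constructible.** -/
theorem not_isLC_ball (m : ℕ) : ¬ IsLC (3 + m) (ball m) := by
  intro hLC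
  refine not_isLC (sys m hLC.1 hLC.2.1) (isCx_ball m) ?_ ?_ hLC
  · refine ⟨Fq m 3077, facet_Fq m (by decide), ?_⟩
    intro i hi
    rw [mem_A0] at hi
    rw [mem_Fq]
    intro hlt
    have h : (i : ℕ) = 10 ∨ (i : ℕ) = 11 := by omega
    rcases h with h | h
    · rw [h]; decide
    · rw [h]; decide
  · rintro ⟨g, hg, u0, hu0, -, hgu⟩
    have key : ∀ q ∈ Bk, ∀ (u v : ℕ) (hu : u < 12 + m) (hv : v < 12 + m), u < 10 → v < 10 →
        q.testBit u = true → q.testBit v = true →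
        g ⟨v, hv⟩ = Pool.Agent.Helper175.NS.psi u v (g ⟨u, hu⟩) := by
      intro q hq u v hu hv hu1 hv1 bu bv
      exact hg _ (facet_Fq m hq) ⟨u, hu⟩ (mem_Fq.2 (fun _ => bu)) ⟨v, hv⟩ (mem_Fq.2 (fun _ => bv))
        (not_mem_A0.2 hu1) (not_mem_A0.2 hv1)
    have a0 : 0 < 12 + m := by omega
    have a2 : 2 < 12 + m := by omega
    have a5 : 5 < 12 + m := by omega
    have a8 : 8 < 12 + m := by omega
    have h00 : g ⟨0, a0⟩ = 0 := by
      rcases mem_L3.1 hu0 with h | h | h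
      · have e : u0 = ⟨0, a0⟩ := Fin.ext h
        rw [← e]; exact hgu
      · have e : u0 = ⟨2, a2⟩ := Fin.ext h
        rw [e] at hgu
        rw [key 3077 (by decide) 2 0 a2 a0 (by omega) (by omega) (by decide) (by decide), hgu]
        decide
      · have e : u0 = ⟨5, a5⟩ := Fin.ext h
        rw [e] at hgu
        rw [key 3105 (by decide) 5 0 a5 a0 (by omega) (by omega) (by decide) (by decide), hgu]
        decide
    have h2 : g ⟨2, a2⟩ = 0 := by
      rw [key 3077 (by decide) 0 2 a0 a2 (by omega) (by omega) (by decide) (by decide), h00]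
      decide
    have h8 : g ⟨8, a8⟩ = 1 := by
      rw [key 1289 (by decide) 0 8 a0 a8 (by omega) (by omega) (by decide) (by decide), h00]
      decide
    have h8' : g ⟨8, a8⟩ = 0 := by
      rw [key 2324 (by decide) 2 8 a2 a8 (by omega) (by omega) (by decide) (by decide), h2]
      decide
    rw [h8] at h8'
    exact absurd h8' (by decide)

theorem main (d : ℕ) (hd : 4 ≤ d) : ∃ K : Finset (Finset (Fin (d + 9))),
    IsCx K ∧ IsBall d K ∧ NonEvasive K ∧ ¬ IsTreeLC d K := by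
  obtain ⟨m, rfl⟩ : ∃ m, d = 3 + (m + 1) := ⟨d - 4, by omega⟩
  have e : 3 + (m + 1) + 9 = 12 + (m + 1) := by omega
  rw [e]
  exact ⟨ball (m + 1), isCx_ball _, isBall_ball _, nonEvasive_ball m,
    fun h => not_isLC_ball (m + 1) (isLC_of_isTreeLC h)⟩

end Pool.Agent.N361.LC
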